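import Pool.Agent.Q162.GC.DCcore

/-!
# The exponential of a positive semidefinite kernel is at least its linear part (for job GC-ND1)
-/

set_option autoImplicit false

open MeasureTheory Filter Topology Set Matrix
open scoped ComplexConjugate

namespace Pool.Agent.Q208.GC

open Pool.Agent.Q162.GC

theorem pow_psd {n : ℕ} {S : Matrix (Fin n) (Fin n) ℝ} (hS : S.PosSemidef) (m : ℕ) :
    (Matrix.of fun i j => S i j ^ (m + 1)).PosSemidef := by
  induction m with
  | zero =>
    have e : (Matrix.of fun i j => S i j ^ (0 + 1)) = S := by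
      ext i j
      simp
    rw [e]
    exact hS
  | succ m ih =>
    have h := ih.hadamard hS
    have e : (Matrix.of fun i j => S i j ^ (m + 1)) ⊙ S = Matrix.of fun i j => S i j ^ (m + 1 + 1) := by
      ext i j
      simp [Matrix.hadamard, pow_succ]
    rwa [e] at h

theorem pow_quad {n : ℕ} {S : Matrix (Fin n) (Fin n) ℝ} (hS : S.PosSemidef) (m : ℕ)
    (u : Fin n → ℝ) : 0 ≤ ∑ i, ∑ j, u i * u j * S i j ^ (m + 1) := by
  have h := (pow_psd hS m).dotProduct_mulVec_nonneg u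
  have e : star u ⬝ᵥ ((Matrix.of fun i j => S i j ^ (m + 1)) *ᵥ u) =
      ∑ i, ∑ j, u i * u j * S i j ^ (m + 1) := by
    simp only [dotProduct, mulVec, Matrix.of_apply, Pi.star_apply, star_trivial]
    refine Finset.sum_congr rfl fun i _ => ?_
    rw [Finset.mul_sum]
    exact Finset.sum_congr rfl fun j _ => by ring
  rwa [e] at h

theorem quad_real {n : ℕ} {S : Matrix (Fin n) (Fin n) ℝ} (hS : S.PosSemidef) {b : ℝ} (hb : 0 ≤ b)
    (u : Fin n → ℝ) : ∑ i, ∑ j, u i * u j * (1 + b * S i j) ≤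
      ∑ i, ∑ j, u i * u j * Real.exp (b * S i j) := by
  have hs : HasSum (fun m : ℕ => ∑ i, ∑ j, u i * u j * ((b * S i j) ^ m / m.factorial))
      (∑ i, ∑ j, u i * u j * Real.exp (b * S i j)) := by
    refine hasSum_sum fun i _ => hasSum_sum fun j _ => HasSum.mul_left _ ?_
    rw [Real.exp_eq_exp_ℝ]
    exact NormedSpace.expSeries_div_hasSum_exp (b * S i j)
  have h1 := sum_le_hasSum (Finset.range 2) (fun m hm => ?_) hs
  · refine le_trans (le_of_eq ?_) h1
    rw [Finset.sum_range_succ, Finset.sum_range_one, ← Finset.sum_add_distrib]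
    refine Finset.sum_congr rfl fun i _ => ?_
    rw [← Finset.sum_add_distrib]
    refine Finset.sum_congr rfl fun j _ => ?_
    simp
    ring
  · rw [Finset.mem_range, not_lt] at hm
    obtain ⟨k, rfl⟩ : ∃ k, m = k + 1 := ⟨m - 1, by omega⟩
    have h2 : ∑ i, ∑ j, u i * u j * ((b * S i j) ^ (k + 1) / (k + 1).factorial) =
        b ^ (k + 1) / (k + 1).factorial * ∑ i, ∑ j, u i * u j * S i j ^ (k + 1) := by
      rw [Finset.mul_sum]
      refine Finset.sum_congr rfl fun i _ => ?_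
      rw [Finset.mul_sum]
      refine Finset.sum_congr rfl fun j _ => ?_
      rw [mul_pow]
      ring
    rw [h2]
    exact mul_nonneg (by positivity) (pow_quad hS k u)

theorem re_quad {n : ℕ} (p : Fin n → ℂ) (G : Fin n → Fin n → ℝ) :
    (∑ i, ∑ j, p i * conj (p j) * ((G i j : ℝ) : ℂ)).re =
      ∑ i, ∑ j, (p i).re * (p j).re * G i j + ∑ i, ∑ j, (p i).im * (p j).im * G i j := by
  rw [Complex.re_sum, ← Finset.sum_add_distrib]
  refine Finset.sum_congr rfl fun i _ => ?_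
  rw [Complex.re_sum, ← Finset.sum_add_distrib]
  refine Finset.sum_congr rfl fun j _ => ?_
  rw [Complex.re_mul_ofReal, Complex.mul_re, Complex.conj_re, Complex.conj_im]
  ring

theorem quad_cplx {n : ℕ} {S : Matrix (Fin n) (Fin n) ℝ} (hS : S.PosSemidef) {b : ℝ} (hb : 0 ≤ b)
    (p : Fin n → ℂ) : (∑ i, ∑ j, p i * conj (p j) * ((1 + b * S i j : ℝ) : ℂ)).re ≤
      (∑ i, ∑ j, p i * conj (p j) * ((Real.exp (b * S i j) : ℝ) : ℂ)).re := by
  rw [re_quad, re_quad]
  exact add_le_add (quad_real hS hb _) (quad_real hS hb _)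

/-- the Riemann sums -/
noncomputable def RS (Kf : ℝ → ℝ → ℝ) (b : ℝ) (φ : ℝ → ℂ) (n : ℕ) : ℂ :=
  ∑ k ∈ Finset.range n, ∑ l ∈ Finset.range n,
    ph' φ n k * conj (ph' φ n l) * ((Real.exp (b * Kf ((k : ℝ) / n) ((l : ℝ) / n)) : ℝ) : ℂ)

theorem RS_lim {Kf : ℝ → ℝ → ℝ} (hK : Continuous fun z : ℝ × ℝ => Kf z.1 z.2) (b : ℝ) {φ : ℝ → ℂ}
    (hφ : Continuous φ) {L : ℝ} (hL0 : 0 ≤ L)
    (hL : ∀ x y x' y', |Real.exp (b * Kf x y) - Real.exp (b * Kf x' y')| ≤
      L * (|x - x'| + |y - y'|)) :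
    Tendsto (fun n : ℕ => RS Kf b φ (n + 1)) atTop (𝓝 (∫ z, FF Kf b φ z ∂MM)) := by
  obtain ⟨P, hP⟩ : ∃ P : ℝ, ∀ x ∈ Icc (0 : ℝ) 1, ‖φ x‖ ≤ P :=
    isCompact_Icc.exists_bound_of_continuousOn (f := φ) (s := Icc (0 : ℝ) 1) hφ.continuousOn
  rw [tendsto_iff_norm_sub_tendsto_zero]
  have hlim : Tendsto (fun n : ℕ => P ^ 2 * (L * (2 / ((n : ℝ) + 1)))) atTop (𝓝 (P ^ 2 * (L * 0))) := by
    refine Tendsto.const_mul _ (Tendsto.const_mul _ ?_)
    have h := (tendsto_one_div_add_atTop_nhds_zero_nat (𝕜 := ℝ)).const_mul 2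
    rw [mul_zero] at h
    refine h.congr fun n => ?_
    ring
  rw [mul_zero, mul_zero] at hlim
  refine squeeze_zero (fun _ => norm_nonneg _) (fun n => ?_) hlim
  have hn : (0 : ℝ) < (n : ℝ) + 1 := by positivity
  refine riemann hK b hφ hP (by positivity) (Nat.succ_pos n) (Nat.succ_pos n) ?_
  intro k l x y h1 h2 h3 h4
  refine (hL _ _ _ _).trans ?_
  push_cast at h1 h2 h3 h4 ⊢
  have e1 : |(k : ℝ) / (n + 1) - x| ≤ 1 / (n + 1) := by
    rw [add_div] at h2
    rw [abs_le]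
    constructor <;> linarith [show (0 : ℝ) < 1 / ((n : ℝ) + 1) by positivity]
  have e2 : |(l : ℝ) / (n + 1) - y| ≤ 1 / (n + 1) := by
    rw [add_div] at h4
    rw [abs_le]
    constructor <;> linarith [show (0 : ℝ) < 1 / ((n : ℝ) + 1) by positivity]
  have e3 : (2 : ℝ) / (n + 1) = 1 / (n + 1) + 1 / (n + 1) := by ring
  rw [e3]
  gcongr

/-- the main inequality for a bounded Lipschitz kernel -/
theorem nd1 {S : ℝ → ℝ → ℝ} {M L b : ℝ} (hL0 : 0 ≤ L) (hb : 0 ≤ b)
    (hM : ∀ x y, |S x y| ≤ M) (hL : ∀ x y x' y', |S x y - S x' y'| ≤ L * (|x - x'| + |y - y'|))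
    (hpsd : ∀ (n : ℕ) (x : Fin n → ℝ), (Matrix.of fun i j => S (x i) (x j)).PosSemidef)
    {φ : ℝ → ℂ} (hφ : Continuous φ) :
    ‖∫ x in (0 : ℝ)..1, φ x‖ ^ 2 +
        b * (∫ x in (0 : ℝ)..1, ∫ y in (0 : ℝ)..1, φ x * conj (φ y) * ((S x y : ℝ) : ℂ)).re ≤
      (∫ x in (0 : ℝ)..1, ∫ y in (0 : ℝ)..1,
        φ x * conj (φ y) * ((Real.exp (b * S x y) : ℝ) : ℂ)).re := by
  have hM0 : 0 ≤ M := (abs_nonneg _).trans (hM 0 0)
  have hSc : Continuous fun z : ℝ × ℝ => S z.1 z.2 := by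
    have hLi : LipschitzWith (2 * L).toNNReal fun z : ℝ × ℝ => S z.1 z.2 := by
      refine LipschitzWith.of_dist_le_mul fun z w => ?_
      rw [Real.coe_toNNReal _ (by positivity), Real.dist_eq]
      refine (hL z.1 z.2 w.1 w.2).trans ?_
      have h1 : |z.1 - w.1| ≤ dist z w := by rw [← Real.dist_eq]; exact le_max_left _ _
      have h2 : |z.2 - w.2| ≤ dist z w := by rw [← Real.dist_eq]; exact le_max_right _ _
      nlinarith
    exact hLi.continuous
  have hpos : ∀ x y, 0 < S x y + (M + 1) := fun x y => by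
    have := neg_abs_le (S x y)
    have := hM x y
    linarith
  set T : ℝ → ℝ → ℝ := fun x y => Real.log (S x y + (M + 1)) with hT
  have hTe : ∀ x y, Real.exp (1 * T x y) = S x y + (M + 1) := fun x y => by
    rw [one_mul, hT]
    exact Real.exp_log (hpos x y)
  have hTc : Continuous fun z : ℝ × ℝ => T z.1 z.2 :=
    (hSc.add continuous_const).log fun z => (hpos z.1 z.2).ne'
  -- the three limits
  have lA := RS_lim hSc b hφ (L := Real.exp (b * M) * (b * L)) (by positivity) (fun x y x' y' => by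
    have hu : b * S x y ≤ b * M := mul_le_mul_of_nonneg_left ((le_abs_self _).trans (hM x y)) hb
    have hv : b * S x' y' ≤ b * M := mul_le_mul_of_nonneg_left ((le_abs_self _).trans (hM x' y')) hb
    refine (exp_sub_le _ _ _ hu hv).trans ?_
    rw [← mul_sub, abs_mul, abs_of_nonneg hb, mul_assoc, mul_assoc]
    have := hL x y x' y'
    gcongr)
  have lB := RS_lim (Kf := fun _ _ => 0) continuous_const 0 hφ (L := 0) le_rfl
    (fun x y x' y' => by simp)
  have lC := RS_lim hTc 1 hφ hL0 (fun x y x' y' => by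
    rw [hTe, hTe, add_sub_add_right_eq_sub]
    exact hL x y x' y')
  set IA := ∫ z, FF S b φ z ∂MM with hIA
  set IB := ∫ z, FF (fun _ _ => 0) 0 φ z ∂MM with hIB
  set IC := ∫ z, FF T 1 φ z ∂MM with hIC
  -- the inequality of the sums
  have hineq : ∀ n : ℕ, ((1 - b * (M + 1) : ℝ) * RS (fun _ _ => 0) 0 φ (n + 1) +
      (b : ℂ) * RS T 1 φ (n + 1)).re ≤ (RS S b φ (n + 1)).re := by
    intro n
    have h := quad_cplx (hpsd (n + 1) (fun i => ((i : ℕ) : ℝ) / ((n + 1 : ℕ) : ℝ))) hb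
      (fun i => ph' φ (n + 1) (i : ℕ))
    have eA : RS S b φ (n + 1) = ∑ i : Fin (n + 1), ∑ j : Fin (n + 1), ph' φ (n + 1) (i : ℕ) *
        conj (ph' φ (n + 1) (j : ℕ)) * ((Real.exp (b * (Matrix.of fun i j : Fin (n + 1) =>
          S (((i : ℕ) : ℝ) / ((n + 1 : ℕ) : ℝ)) (((j : ℕ) : ℝ) / ((n + 1 : ℕ) : ℝ))) i j) : ℝ) : ℂ) := by
      unfold RS
      rw [Finset.sum_range]
      refine Finset.sum_congr rfl fun i _ => ?_
      rw [Finset.sum_range]
      rfl
    have eB : (1 - b * (M + 1) : ℝ) * RS (fun _ _ => 0) 0 φ (n + 1) + (b : ℂ) * RS T 1 φ (n + 1) =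
        ∑ i : Fin (n + 1), ∑ j : Fin (n + 1), ph' φ (n + 1) (i : ℕ) *
        conj (ph' φ (n + 1) (j : ℕ)) * ((1 + b * (Matrix.of fun i j : Fin (n + 1) =>
          S (((i : ℕ) : ℝ) / ((n + 1 : ℕ) : ℝ)) (((j : ℕ) : ℝ) / ((n + 1 : ℕ) : ℝ))) i j : ℝ) : ℂ) := by
      unfold RS
      rw [Finset.sum_range, Finset.sum_range, Finset.mul_sum, Finset.mul_sum,
        ← Finset.sum_add_distrib]
      refine Finset.sum_congr rfl fun i _ => ?_
      rw [Finset.sum_range, Finset.sum_range, Finset.mul_sum, Finset.mul_sum,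
        ← Finset.sum_add_distrib]
      refine Finset.sum_congr rfl fun j _ => ?_
      rw [hTe, mul_zero, Real.exp_zero, Matrix.of_apply]
      push_cast
      ring
    rw [eA, eB]
    exact h
  have hlim := le_of_tendsto_of_tendsto'
    ((Complex.continuous_re.tendsto _).comp ((lB.const_mul ((1 - b * (M + 1) : ℝ) : ℂ)).add
      (lC.const_mul (b : ℂ)))) ((Complex.continuous_re.tendsto _).comp lA) hineq
  -- identification of the limits
  have iA : IA = ∫ x in (0 : ℝ)..1, ∫ y in (0 : ℝ)..1,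
      φ x * conj (φ y) * ((Real.exp (b * S x y) : ℝ) : ℂ) := FF_iter hSc b hφ
  have c2 : Continuous fun z : ℝ × ℝ => φ z.1 * conj (φ z.2) :=
    (hφ.comp continuous_fst).mul (Complex.continuous_conj.comp (hφ.comp continuous_snd))
  have iB : IB = ∫ x in (0 : ℝ)..1, ∫ y in (0 : ℝ)..1, φ x * conj (φ y) := by
    rw [hIB, FF_iter continuous_const 0 hφ]
    refine intervalIntegral.integral_congr fun x _ => intervalIntegral.integral_congr fun y _ => ?_
    simp [FF]
  have iB2 : IB = ((‖∫ x in (0 : ℝ)..1, φ x‖ ^ 2 : ℝ) : ℂ) := by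
    rw [iB]
    have h1 : conj (∫ y in (0 : ℝ)..1, φ y) = ∫ y in (0 : ℝ)..1, conj (φ y) := by
      simp only [intervalIntegral, map_sub, integral_conj]
    simp_rw [intervalIntegral.integral_const_mul, ← h1]
    rw [intervalIntegral.integral_mul_const, Complex.mul_conj, Complex.normSq_eq_norm_sq]
  have iC : IC = (∫ x in (0 : ℝ)..1, ∫ y in (0 : ℝ)..1, φ x * conj (φ y) * ((S x y : ℝ) : ℂ)) +
      ((M + 1 : ℝ) : ℂ) * IB := by
    rw [hIC, FF_iter hTc 1 hφ, iB, ← intervalIntegral.integral_const_mul]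
    have cS : Continuous fun z : ℝ × ℝ => φ z.1 * conj (φ z.2) * ((S z.1 z.2 : ℝ) : ℂ) :=
      c2.mul (Complex.continuous_ofReal.comp hSc)
    rw [← intervalIntegral.integral_add]
    · refine intervalIntegral.integral_congr fun x _ => ?_
      show ∫ y in (0 : ℝ)..1, FF T 1 φ (x, y) = _
      rw [← intervalIntegral.integral_const_mul, ← intervalIntegral.integral_add]
      · refine intervalIntegral.integral_congr fun y _ => ?_
        show φ x * conj (φ y) * ((Real.exp (1 * T x y) : ℝ) : ℂ) = _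
        rw [hTe]
        push_cast
        ring
      · exact (cS.comp (show Continuous fun y : ℝ => ((x, y) : ℝ × ℝ) by fun_prop)).intervalIntegrable _ _
      · exact (continuous_const.mul
          (c2.comp (show Continuous fun y : ℝ => ((x, y) : ℝ × ℝ) by fun_prop))).intervalIntegrable _ _
    · exact (intervalIntegral.continuous_parametric_intervalIntegral_of_continuous'
        (f := fun x y => φ x * conj (φ y) * ((S x y : ℝ) : ℂ)) (by exact cS) _ _).intervalIntegrable _ _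
    · exact (continuous_const.mul (intervalIntegral.continuous_parametric_intervalIntegral_of_continuous'
        (f := fun x y => φ x * conj (φ y)) (by exact c2) _ _)).intervalIntegrable _ _
  rw [← iA]
  refine le_trans (le_of_eq ?_) hlim
  rw [iC, iB2]
  simp only [Complex.add_re, Complex.re_ofReal_mul, Complex.ofReal_re]
  ring

end Pool.Agent.Q208.GC
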