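import Pool.Agent.Q278.GC.Stm4
import Pool.Agent.Q208.GC.ND1core

/-!
# Job GC-ND1 of helper278's project
-/

set_option autoImplicit false

namespace Pool.Agent.Q208.GC

open Pool.Agent.Q278.GC

theorem t_ND1 : S_ND1 := by
  intro K κ C b hK hb φ hφ J
  have hC := hK.C1
  refine nd1 (S := K J J) (M := C * (1 + J)) (L := C * 2 ^ J) (by positivity) hb ?_ ?_ ?_ hφ
  · intro x y
    simpa using hK.sup J J x y
  · intro x y x' y'
    simpa using hK.lip J J x x' y y'
  · intro n x
    exact hK.psd n (fun _ => J) x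

end Pool.Agent.Q208.GC
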