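import Mathlib

/-!
# Transforms of a continuous function on the unit interval (for job GC-ND2)
-/

set_option autoImplicit false

open MeasureTheory Filter Topology Set Complex
open scoped ComplexConjugate FourierTransform

namespace Pool.Agent.Q208.GC

/-- the transform on the unit interval -/
noncomputable def PP (φ : ℝ → ℂ) (z : ℂ) : ℂ :=
  ∫ x in (0 : ℝ)..1, φ x * cexp (-(2 * Real.pi * x * I) * z)

noncomputable def AA (φ : ℝ → ℂ) (ξ : ℝ) : ℂ :=
  ∫ x in (0 : ℝ)..1, φ x * ((Real.cos (2 * Real.pi * x * ξ) : ℝ) : ℂ)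

noncomputable def BB (φ : ℝ → ℂ) (ξ : ℝ) : ℂ :=
  ∫ x in (0 : ℝ)..1, φ x * ((Real.sin (2 * Real.pi * x * ξ) : ℝ) : ℂ)

noncomputable def QQ (φ : ℝ → ℂ) (ξ : ℝ) : ℝ := ‖AA φ ξ‖ ^ 2 + ‖BB φ ξ‖ ^ 2

theorem AA_cont {φ : ℝ → ℂ} (hφ : Continuous φ) : Continuous (AA φ) := by
  unfold AA
  exact intervalIntegral.continuous_parametric_intervalIntegral_of_continuous'
    (f := fun ξ x => φ x * ((Real.cos (2 * Real.pi * x * ξ) : ℝ) : ℂ)) (by fun_prop) 0 1

theorem BB_cont {φ : ℝ → ℂ} (hφ : Continuous φ) : Continuous (BB φ) := by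
  unfold BB
  exact intervalIntegral.continuous_parametric_intervalIntegral_of_continuous'
    (f := fun ξ x => φ x * ((Real.sin (2 * Real.pi * x * ξ) : ℝ) : ℂ)) (by fun_prop) 0 1

theorem QQ_cont {φ : ℝ → ℂ} (hφ : Continuous φ) : Continuous (QQ φ) := by
  unfold QQ
  exact ((AA_cont hφ).norm.pow 2).add ((BB_cont hφ).norm.pow 2)

theorem PP_real {φ : ℝ → ℂ} (hφ : Continuous φ) (ξ : ℝ) : PP φ ξ = AA φ ξ - I * BB φ ξ := by
  unfold PP AA BB
  rw [← intervalIntegral.integral_const_mul, ← intervalIntegral.integral_sub]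
  · refine intervalIntegral.integral_congr fun x _ => ?_
    show φ x * cexp (-(2 * Real.pi * x * I) * ξ) = _
    have h1 : -(2 * Real.pi * x * I) * (ξ : ℂ) = ((-(2 * Real.pi * x * ξ) : ℝ) : ℂ) * I := by
      push_cast
      ring
    rw [h1, Complex.exp_mul_I, ← Complex.ofReal_cos, ← Complex.ofReal_sin, Real.cos_neg,
      Real.sin_neg]
    push_cast
    ring
  · exact Continuous.intervalIntegrable (by fun_prop) _ _
  · exact Continuous.intervalIntegrable (by fun_prop) _ _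

theorem PP_diff {φ : ℝ → ℂ} (hφ : Continuous φ) : Differentiable ℂ (PP φ) := by
  intro z₀
  obtain ⟨M, hM⟩ : ∃ M : ℝ, ∀ x ∈ Icc (0 : ℝ) 1, ‖φ x‖ ≤ M :=
    isCompact_Icc.exists_bound_of_continuousOn (f := φ) (s := Icc (0 : ℝ) 1) hφ.continuousOn
  have hM0 : 0 ≤ M := (norm_nonneg _).trans (hM 0 ⟨le_rfl, zero_le_one⟩)
  have h := intervalIntegral.hasDerivAt_integral_of_dominated_loc_of_deriv_le (μ := volume)
    (F := fun z x => φ x * cexp (-(2 * Real.pi * x * I) * z))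
    (F' := fun z x => φ x * (cexp (-(2 * Real.pi * x * I) * z) * (-(2 * Real.pi * x * I))))
    (x₀ := z₀) (s := Metric.ball z₀ 1) (a := 0) (b := 1)
    (bound := fun _ => M * (Real.exp (2 * Real.pi * (‖z₀‖ + 1)) * (2 * Real.pi)))
    (Metric.ball_mem_nhds _ one_pos)
    (Eventually.of_forall fun z => Continuous.aestronglyMeasurable (by fun_prop))
    (Continuous.intervalIntegrable (by fun_prop) _ _)
    (Continuous.aestronglyMeasurable (by fun_prop))
    (Eventually.of_forall fun x hx z hz => ?_) intervalIntegrable_const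
    (Eventually.of_forall fun x hx z hz => ?_)
  · exact h.2.differentiableAt
  · rw [uIoc_of_le zero_le_one] at hx
    have hx0 : 0 ≤ x := hx.1.le
    have hz1 : ‖z‖ ≤ ‖z₀‖ + 1 := by
      rw [Metric.mem_ball, dist_eq_norm] at hz
      have := norm_sub_norm_le z z₀
      linarith
    have hpi := Real.pi_pos
    rw [norm_mul, norm_mul]
    have e1 : ‖-(2 * Real.pi * x * I : ℂ)‖ ≤ 2 * Real.pi := by
      rw [norm_neg, norm_mul, norm_mul, norm_mul, Complex.norm_I, Complex.norm_real,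
        Complex.norm_real, Real.norm_of_nonneg hpi.le, Real.norm_of_nonneg hx0, mul_one]
      have : ‖(2 : ℂ)‖ = 2 := by norm_num
      rw [this]
      have := hx.2
      nlinarith
    have e2 : ‖cexp (-(2 * Real.pi * x * I) * z)‖ ≤ Real.exp (2 * Real.pi * (‖z₀‖ + 1)) := by
      rw [Complex.norm_exp]
      apply Real.exp_le_exp.2
      calc (-(2 * Real.pi * x * I) * z).re ≤ ‖-(2 * Real.pi * x * I) * z‖ := Complex.re_le_norm _
        _ = ‖-(2 * Real.pi * x * I : ℂ)‖ * ‖z‖ := norm_mul _ _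
        _ ≤ 2 * Real.pi * (‖z₀‖ + 1) := by gcongr
    have e3 := hM x ⟨hx0, hx.2⟩
    gcongr
  · have h1 : HasDerivAt (fun z : ℂ => -(2 * Real.pi * x * I) * z) (-(2 * Real.pi * x * I)) z := by
      simpa using (hasDerivAt_id z).const_mul (-(2 * Real.pi * x * I : ℂ))
    exact (h1.cexp).const_mul (φ x)

/-- the transform does not vanish at all large frequencies -/
theorem PP_ne {φ : ℝ → ℂ} (hφ : Continuous φ) (hne : ∃ x ∈ Icc (0 : ℝ) 1, φ x ≠ 0) (X : ℝ) :
    ∃ ξ : ℝ, X < ξ ∧ PP φ ξ ≠ 0 := by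
  by_contra hc
  push Not at hc
  -- the transform vanishes everywhere
  have hz : ∀ z : ℂ, PP φ z = 0 := by
    have ha : AnalyticOnNhd ℂ (PP φ) univ := fun z _ => (PP_diff hφ).analyticAt z
    have hf : ∃ᶠ z in 𝓝[≠] (((X + 1 : ℝ)) : ℂ), PP φ z = 0 := by
      have h1 : Tendsto (fun n : ℕ => ((X + 1 + 1 / ((n : ℝ) + 1) : ℝ) : ℂ)) atTop
          (𝓝[≠] ((X + 1 : ℝ) : ℂ)) := by
        rw [tendsto_nhdsWithin_iff]
        constructor
        · have h2 : Tendsto (fun n : ℕ => X + 1 + 1 / ((n : ℝ) + 1)) atTop (𝓝 (X + 1 + 0)) :=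
            tendsto_const_nhds.add tendsto_one_div_add_atTop_nhds_zero_nat
          rw [add_zero] at h2
          exact (Complex.continuous_ofReal.tendsto _).comp h2
        · refine Eventually.of_forall fun n => ?_
          have : (0 : ℝ) < 1 / ((n : ℝ) + 1) := by positivity
          simp only [mem_compl_iff, mem_singleton_iff, Complex.ofReal_inj]
          linarith
      refine h1.frequently (Eventually.frequently (Eventually.of_forall fun n => ?_))
      refine hc _ ?_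
      have : (0 : ℝ) < 1 / ((n : ℝ) + 1) := by positivity
      linarith
    have h2 := ha.eqOn_zero_of_preconnected_of_frequently_eq_zero isPreconnected_univ
      (mem_univ _) hf
    exact fun z => h2 (mem_univ z)
  -- Fourier inversion
  set f : ℝ → ℂ := (Ioc (0 : ℝ) 1).indicator φ with hf
  have hfi : Integrable f := by
    rw [hf, integrable_indicator_iff measurableSet_Ioc]
    exact (hφ.continuousOn.integrableOn_compact isCompact_Icc).mono_set Ioc_subset_Icc_self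
  have hF : 𝓕 f = 0 := by
    funext ξ
    rw [Real.fourier_real_eq_integral_exp_smul]
    have h1 : ∫ v : ℝ, cexp (↑(-2 * Real.pi * v * ξ) * I) • f v = PP φ ξ := by
      unfold PP
      rw [intervalIntegral.integral_of_le zero_le_one, ← integral_indicator measurableSet_Ioc]
      refine integral_congr_ae (Eventually.of_forall fun v => ?_)
      show cexp (↑(-2 * Real.pi * v * ξ) * I) • f v =
        (Ioc (0 : ℝ) 1).indicator (fun x => φ x * cexp (-(2 * Real.pi * x * I) * ξ)) v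
      rw [hf]
      by_cases hv : v ∈ Ioc (0 : ℝ) 1
      · rw [indicator_of_mem hv, indicator_of_mem hv, smul_eq_mul, mul_comm]
        congr 2
        push_cast
        ring
      · rw [indicator_of_notMem hv, indicator_of_notMem hv, smul_zero]
    rw [h1, hz]
    rfl
  have hzero : ∀ x ∈ Ioo (0 : ℝ) 1, φ x = 0 := by
    intro x hx
    have hca : ContinuousAt f x := by
      have h1 : f =ᶠ[𝓝 x] φ := by
        filter_upwards [Ioo_mem_nhds hx.1 hx.2] with y hy
        exact indicator_of_mem (show y ∈ Ioc (0 : ℝ) 1 from ⟨hy.1, hy.2.le⟩) φ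
      exact hφ.continuousAt.congr h1.symm
    have h2 := hfi.fourierInv_fourier_eq (by rw [hF]; exact integrable_zero _ _ _) hca
    rw [hF] at h2
    have h3 : f x = φ x := indicator_of_mem (show x ∈ Ioc (0 : ℝ) 1 from ⟨hx.1, hx.2.le⟩) φ
    rw [← h3, ← h2]
    simp [Real.fourierInv_eq']
  obtain ⟨x, hx, hx0⟩ := hne
  apply hx0
  have h1 : x ∈ closure (Ioo (0 : ℝ) 1) := by
    rw [closure_Ioo (by norm_num)]
    exact hx
  exact (isClosed_singleton.preimage hφ).closure_subset_iff.2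
    (fun y hy => hzero y hy : Ioo (0 : ℝ) 1 ⊆ φ ⁻¹' {0}) h1

/-- `QQ` is bounded below on an interval of large frequencies -/
theorem QQ_low {φ : ℝ → ℂ} (hφ : Continuous φ) (hne : ∃ x ∈ Icc (0 : ℝ) 1, φ x ≠ 0) (X : ℝ) :
    ∃ u v c : ℝ, X < u ∧ u < v ∧ 0 < c ∧ ∀ ξ ∈ Icc u v, c ≤ QQ φ ξ := by
  obtain ⟨ξ, hξ, hP⟩ := PP_ne hφ hne X
  have hQ : 0 < QQ φ ξ := by
    rw [PP_real hφ] at hP
    unfold QQ
    by_contra hc
    push Not at hc
    have h1 : ‖AA φ ξ‖ ^ 2 = 0 := by nlinarith [sq_nonneg ‖AA φ ξ‖, sq_nonneg ‖BB φ ξ‖]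
    have h2 : ‖BB φ ξ‖ ^ 2 = 0 := by nlinarith [sq_nonneg ‖AA φ ξ‖, sq_nonneg ‖BB φ ξ‖]
    rw [sq_eq_zero_iff, norm_eq_zero] at h1 h2
    rw [h1, h2] at hP
    simp at hP
  have hev : ∀ᶠ ζ in 𝓝 ξ, QQ φ ξ / 2 < QQ φ ζ :=
    (QQ_cont hφ).continuousAt.eventually (lt_mem_nhds (by linarith))
  rw [Metric.eventually_nhds_iff] at hev
  obtain ⟨δ, hδ, h⟩ := hev
  refine ⟨ξ, ξ + δ / 2, QQ φ ξ / 2, hξ, by linarith, by linarith, fun ζ hζ => ?_⟩
  refine (h ?_).le
  rw [Real.dist_eq, abs_of_nonneg (by linarith [hζ.1])]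
  linarith [hζ.2]

/-- the double integral of a kernel with a spectral density -/
theorem kern {φ : ℝ → ℂ} {k : ℝ → ℝ → ℝ} {W : ℝ → ℝ} (hφ : Continuous φ) (hW : Continuous W)
    (hWi : Integrable W) (hk : ∀ x y, k x y = ∫ ξ, W ξ * Real.cos (2 * Real.pi * (x - y) * ξ)) :
    ∫ x in (0 : ℝ)..1, ∫ y in (0 : ℝ)..1, φ x * conj (φ y) * ((k x y : ℝ) : ℂ) =
      ((∫ ξ, W ξ * QQ φ ξ : ℝ) : ℂ) := by
  set μ : Measure ℝ := volume.restrict (Ioc (0 : ℝ) 1) with hμ
  set G : ℝ × ℝ → ℝ → ℂ := fun z ξ =>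
    φ z.1 * conj (φ z.2) * ((W ξ * Real.cos (2 * Real.pi * (z.1 - z.2) * ξ) : ℝ) : ℂ) with hG
  have hφi : Integrable φ μ :=
    (hφ.continuousOn.integrableOn_compact isCompact_Icc).mono_set Ioc_subset_Icc_self
  have hGc : Continuous (Function.uncurry G) := by
    have : Function.uncurry G = fun p : (ℝ × ℝ) × ℝ => φ p.1.1 * conj (φ p.1.2) *
      ((W p.2 * Real.cos (2 * Real.pi * (p.1.1 - p.1.2) * p.2) : ℝ) : ℂ) := rfl
    rw [this]
    have c1 : Continuous fun p : (ℝ × ℝ) × ℝ => conj (φ p.1.2) :=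
      Complex.continuous_conj.comp (hφ.comp (by fun_prop))
    have c2 : Continuous fun p : (ℝ × ℝ) × ℝ => W p.2 := hW.comp continuous_snd
    exact ((hφ.comp (by fun_prop)).mul c1).mul (Complex.continuous_ofReal.comp
      (c2.mul (by fun_prop)))
  have hGi : Integrable (Function.uncurry G) ((μ.prod μ).prod volume) := by
    have h1 : Integrable (fun p : (ℝ × ℝ) × ℝ => (‖φ p.1.1‖ * ‖φ p.1.2‖) * |W p.2|)
        ((μ.prod μ).prod volume) := by
      have h2 : Integrable (fun z : ℝ × ℝ => ‖φ z.1‖ * ‖φ z.2‖) (μ.prod μ) :=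
        hφi.norm.mul_prod hφi.norm
      exact h2.mul_prod hWi.abs
    refine h1.mono' hGc.aestronglyMeasurable (Eventually.of_forall fun p => ?_)
    show ‖φ p.1.1 * conj (φ p.1.2) *
      ((W p.2 * Real.cos (2 * Real.pi * (p.1.1 - p.1.2) * p.2) : ℝ) : ℂ)‖ ≤ _
    rw [norm_mul, norm_mul, RCLike.norm_conj, Complex.norm_real, Real.norm_eq_abs, abs_mul]
    have h3 := Real.abs_cos_le_one (2 * Real.pi * (p.1.1 - p.1.2) * p.2)
    calc ‖φ p.1.1‖ * ‖φ p.1.2‖ * (|W p.2| * |Real.cos (2 * Real.pi * (p.1.1 - p.1.2) * p.2)|)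
        ≤ ‖φ p.1.1‖ * ‖φ p.1.2‖ * (|W p.2| * 1) := by gcongr
      _ = _ := by ring
  have e1 : ∫ x in (0 : ℝ)..1, ∫ y in (0 : ℝ)..1, φ x * conj (φ y) * ((k x y : ℝ) : ℂ) =
      ∫ z, (∫ ξ, G z ξ) ∂(μ.prod μ) := by
    have h1 := integral_prod (μ := μ) (ν := μ) (fun z => ∫ ξ, G z ξ) hGi.integral_prod_left
    rw [h1, intervalIntegral.integral_of_le zero_le_one]
    refine integral_congr_ae (Eventually.of_forall fun x => ?_)
    show ∫ y in (0 : ℝ)..1, φ x * conj (φ y) * ((k x y : ℝ) : ℂ) = ∫ y, (∫ ξ, G (x, y) ξ) ∂μ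
    rw [intervalIntegral.integral_of_le zero_le_one]
    refine integral_congr_ae (Eventually.of_forall fun y => ?_)
    show φ x * conj (φ y) * ((k x y : ℝ) : ℂ) =
      ∫ ξ, φ x * conj (φ y) * ((W ξ * Real.cos (2 * Real.pi * (x - y) * ξ) : ℝ) : ℂ)
    rw [integral_const_mul, hk, integral_complex_ofReal]
  rw [e1, integral_integral_swap hGi, ← integral_complex_ofReal]
  refine integral_congr_ae (Eventually.of_forall fun ξ => ?_)
  show ∫ z, G z ξ ∂(μ.prod μ) = ((W ξ * QQ φ ξ : ℝ) : ℂ)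
  have hc : Integrable (fun x => φ x * ((Real.cos (2 * Real.pi * x * ξ) : ℝ) : ℂ)) μ :=
    ((show Continuous fun x => φ x * ((Real.cos (2 * Real.pi * x * ξ) : ℝ) : ℂ) by
      fun_prop).continuousOn.integrableOn_compact isCompact_Icc).mono_set Ioc_subset_Icc_self
  have hs : Integrable (fun x => φ x * ((Real.sin (2 * Real.pi * x * ξ) : ℝ) : ℂ)) μ :=
    ((show Continuous fun x => φ x * ((Real.sin (2 * Real.pi * x * ξ) : ℝ) : ℂ) by
      fun_prop).continuousOn.integrableOn_compact isCompact_Icc).mono_set Ioc_subset_Icc_self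
  have hcc : Integrable (fun x => conj (φ x * ((Real.cos (2 * Real.pi * x * ξ) : ℝ) : ℂ))) μ :=
    (show Continuous fun x => conj (φ x * ((Real.cos (2 * Real.pi * x * ξ) : ℝ) : ℂ)) from
      Complex.continuous_conj.comp (by fun_prop)).continuousOn.integrableOn_compact
        isCompact_Icc |>.mono_set Ioc_subset_Icc_self
  have hsc : Integrable (fun x => conj (φ x * ((Real.sin (2 * Real.pi * x * ξ) : ℝ) : ℂ))) μ :=
    (show Continuous fun x => conj (φ x * ((Real.sin (2 * Real.pi * x * ξ) : ℝ) : ℂ)) from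
      Complex.continuous_conj.comp (by fun_prop)).continuousOn.integrableOn_compact
        isCompact_Icc |>.mono_set Ioc_subset_Icc_self
  have e2 : ∀ z : ℝ × ℝ, G z ξ = (W ξ : ℂ) * ((φ z.1 * ((Real.cos (2 * Real.pi * z.1 * ξ) : ℝ) : ℂ)) *
      conj (φ z.2 * ((Real.cos (2 * Real.pi * z.2 * ξ) : ℝ) : ℂ)) +
      (φ z.1 * ((Real.sin (2 * Real.pi * z.1 * ξ) : ℝ) : ℂ)) *
      conj (φ z.2 * ((Real.sin (2 * Real.pi * z.2 * ξ) : ℝ) : ℂ))) := by
    intro z
    rw [hG]
    simp only [map_mul, Complex.conj_ofReal]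
    have h1 : 2 * Real.pi * (z.1 - z.2) * ξ = 2 * Real.pi * z.1 * ξ - 2 * Real.pi * z.2 * ξ := by ring
    rw [h1, Real.cos_sub]
    push_cast
    ring
  simp_rw [e2]
  rw [integral_const_mul, integral_add (hc.mul_prod hcc) (hs.mul_prod hsc),
    integral_prod_mul (fun x => φ x * ((Real.cos (2 * Real.pi * x * ξ) : ℝ) : ℂ))
      (fun x => conj (φ x * ((Real.cos (2 * Real.pi * x * ξ) : ℝ) : ℂ))),
    integral_prod_mul (fun x => φ x * ((Real.sin (2 * Real.pi * x * ξ) : ℝ) : ℂ))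
      (fun x => conj (φ x * ((Real.sin (2 * Real.pi * x * ξ) : ℝ) : ℂ))),
    integral_conj, integral_conj]
  have eA : ∫ x, φ x * ((Real.cos (2 * Real.pi * x * ξ) : ℝ) : ℂ) ∂μ = AA φ ξ := by
    unfold AA
    rw [intervalIntegral.integral_of_le zero_le_one]
  have eB : ∫ x, φ x * ((Real.sin (2 * Real.pi * x * ξ) : ℝ) : ℂ) ∂μ = BB φ ξ := by
    unfold BB
    rw [intervalIntegral.integral_of_le zero_le_one]
  rw [eA, eB, Complex.mul_conj, Complex.mul_conj, Complex.normSq_eq_norm_sq,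
    Complex.normSq_eq_norm_sq]
  unfold QQ
  push_cast
  ring

end Pool.Agent.Q208.GC
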