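import Pool.Agent.Q278.GC.Stm4
import Pool.Agent.Q128.GC.K2
import Pool.Agent.Q208.GC.ND2core

/-!
# Job GC-ND2 of helper278's project
-/

set_option autoImplicit false

namespace Pool.Agent.Q208.GC

open MeasureTheory Filter Topology Complex
open scoped ComplexConjugate FourierTransform ContDiff
open Pool.Agent.Q278.MC Pool.Agent.Q278.GC Pool.Agent.Q128.GC2

/-- the spectral density -/
noncomputable def WJ (H : ℝ → ℝ) (J : ℕ) (ξ : ℝ) : ℝ := |ξ| * ‖𝓕 (fc (fj H J 0)) ξ‖ ^ 2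

theorem WJ_cont {H : ℝ → ℝ} (hH : Step H) (J : ℕ) : Continuous (WJ H J) := by
  unfold WJ
  exact continuous_abs.mul ((four_contR (fj_cc hH J)).norm.pow 2)

theorem WJ_int {H : ℝ → ℝ} (hH : Step H) (J : ℕ) : Integrable (WJ H J) := by
  refine (cv_int (fj_cc hH J) (fj_cc hH J)).congr (Eventually.of_forall fun ξ => ?_)
  show |ξ| * (𝓕 (fc (fj H J 0)) ξ * conj (𝓕 (fc (fj H J 0)) ξ)).re = WJ H J ξ
  unfold WJ
  rw [Complex.mul_conj, Complex.ofReal_re, Complex.normSq_eq_norm_sq]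

theorem WJ_nonneg (H : ℝ → ℝ) (J : ℕ) (ξ : ℝ) : 0 ≤ WJ H J ξ := by
  unfold WJ
  positivity

theorem fj_four (H : ℝ → ℝ) (J : ℕ) (x ξ : ℝ) :
    𝓕 (fc (fj H J x)) ξ = cexp (-(2 * Real.pi * x * ξ : ℝ) * I) * 𝓕 (fc (fj H J 0)) ξ := by
  have e : fj H J x = sf (fj H J 0) x 1 := by
    funext v
    simp [fj, sf]
  rw [e, four_sf (fj H J 0) one_pos x ξ]
  simp

theorem kj_eq (H : ℝ → ℝ) (J : ℕ) (x y : ℝ) :
    kj H J J x y = ∫ ξ, WJ H J ξ * Real.cos (2 * Real.pi * (x - y) * ξ) := by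
  unfold kj cv
  refine integral_congr_ae (Eventually.of_forall fun ξ => ?_)
  show |ξ| * (𝓕 (fc (fj H J x)) ξ * conj (𝓕 (fc (fj H J y)) ξ)).re =
    WJ H J ξ * Real.cos (2 * Real.pi * (x - y) * ξ)
  rw [fj_four H J x, fj_four H J y]
  unfold WJ
  generalize 𝓕 (fc (fj H J 0)) ξ = g
  have h1 : cexp (-(2 * Real.pi * x * ξ : ℝ) * I) * g * conj (cexp (-(2 * Real.pi * y * ξ : ℝ) * I) * g) =
      ((‖g‖ ^ 2 : ℝ) : ℂ) * cexp (((-(2 * Real.pi * (x - y) * ξ) : ℝ) : ℂ) * I) := by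
    have h2 : conj (cexp (-(2 * Real.pi * y * ξ : ℝ) * I)) = cexp ((2 * Real.pi * y * ξ : ℝ) * I) := by
      rw [← Complex.exp_conj]
      congr 1
      rw [map_mul, map_neg, Complex.conj_ofReal, Complex.conj_I]
      ring
    rw [map_mul, h2]
    have h3 : g * conj g = ((‖g‖ ^ 2 : ℝ) : ℂ) := by
      rw [Complex.mul_conj, Complex.normSq_eq_norm_sq]
    calc _ = (cexp (-(2 * Real.pi * x * ξ : ℝ) * I) * cexp ((2 * Real.pi * y * ξ : ℝ) * I)) *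
          (g * conj g) := by ring
      _ = _ := by
        rw [h3, ← Complex.exp_add, mul_comm]
        congr 2
        push_cast
        ring
  rw [h1, Complex.re_ofReal_mul, Complex.exp_ofReal_mul_I_re, Real.cos_neg]
  ring

theorem QQ_bdd {φ : ℝ → ℂ} (hφ : Continuous φ) : ∃ M : ℝ, ∀ ξ, ‖QQ φ ξ‖ ≤ M := by
  obtain ⟨M, hM⟩ : ∃ M : ℝ, ∀ x ∈ Set.Icc (0 : ℝ) 1, ‖φ x‖ ≤ M :=
    isCompact_Icc.exists_bound_of_continuousOn (f := φ) (s := Set.Icc (0 : ℝ) 1) hφ.continuousOn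
  refine ⟨M ^ 2 + M ^ 2, fun ξ => ?_⟩
  have hA : ‖AA φ ξ‖ ≤ M := by
    have h := intervalIntegral.norm_integral_le_of_norm_le_const (a := (0 : ℝ)) (b := 1) (C := M)
      (f := fun x => φ x * ((Real.cos (2 * Real.pi * x * ξ) : ℝ) : ℂ)) (fun x hx => by
        rw [Set.uIoc_of_le zero_le_one] at hx
        rw [norm_mul, Complex.norm_real, Real.norm_eq_abs]
        have h1 := hM x ⟨hx.1.le, hx.2⟩
        have h2 := Real.abs_cos_le_one (2 * Real.pi * x * ξ)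
        calc ‖φ x‖ * |Real.cos (2 * Real.pi * x * ξ)| ≤ ‖φ x‖ * 1 := by gcongr
          _ ≤ M := by linarith)
    rw [sub_zero, abs_one, mul_one] at h
    exact h
  have hB : ‖BB φ ξ‖ ≤ M := by
    have h := intervalIntegral.norm_integral_le_of_norm_le_const (a := (0 : ℝ)) (b := 1) (C := M)
      (f := fun x => φ x * ((Real.sin (2 * Real.pi * x * ξ) : ℝ) : ℂ)) (fun x hx => by
        rw [Set.uIoc_of_le zero_le_one] at hx
        rw [norm_mul, Complex.norm_real, Real.norm_eq_abs]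
        have h1 := hM x ⟨hx.1.le, hx.2⟩
        have h2 := Real.abs_sin_le_one (2 * Real.pi * x * ξ)
        calc ‖φ x‖ * |Real.sin (2 * Real.pi * x * ξ)| ≤ ‖φ x‖ * 1 := by gcongr
          _ ≤ M := by linarith)
    rw [sub_zero, abs_one, mul_one] at h
    exact h
  unfold QQ
  rw [Real.norm_of_nonneg (by positivity)]
  have h0 := norm_nonneg (AA φ ξ)
  have h1 := norm_nonneg (BB φ ξ)
  gcongr

theorem t_ND2 : S_ND2 := by
  intro H hH φ hφ hne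
  obtain ⟨K, hK, hb⟩ := four_bound (h_cc hH)
  obtain ⟨G, hG⟩ : ∃ G : ℝ → ℂ, G = 𝓕 (fc (deriv H)) := ⟨_, rfl⟩
  have hGc : Continuous G := by
    rw [hG]
    exact four_contR (h_cc hH)
  have hG0 : G 0 = 1 := by
    rw [hG]
    exact h_int hH
  rw [← hG] at hb
  obtain ⟨u, v, c, hu, huv, hc, hQ⟩ := QQ_low hφ hne (1 + 4 * K)
  have hu0 : 0 < u := by linarith
  have hv0 : 0 < v := by linarith
  -- the limit of small frequencies
  have hev : ∀ᶠ t in 𝓝 (0 : ℝ), ‖G t - 1‖ < 1 / 4 := by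
    have h1 := hGc.tendsto 0
    rw [hG0] at h1
    have h2 := (Metric.tendsto_nhds.1 h1) (1 / 4) (by norm_num)
    filter_upwards [h2] with t ht
    rwa [dist_eq_norm] at ht
  obtain ⟨η, hη, hη'⟩ := Metric.eventually_nhds_iff.1 hev
  obtain ⟨J0, hJ0⟩ : ∃ J0 : ℕ, ∀ J : ℕ, J0 ≤ J → 1 / 2 ^ J * v < η := by
    have h1 : Tendsto (fun J : ℕ => (1 / 2 : ℝ) ^ J * v) atTop (𝓝 (0 * v)) :=
      (tendsto_pow_atTop_nhds_zero_of_lt_one (by norm_num) (by norm_num)).mul_const v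
    rw [zero_mul] at h1
    obtain ⟨J0, h⟩ := eventually_atTop.1 (h1.eventually (gt_mem_nhds hη))
    refine ⟨J0, fun J hJ => ?_⟩
    have := h J hJ
    rwa [one_div_pow] at this
  refine ⟨c / (16 * Real.pi ^ 2 * v) * (v - u), J0, ?_, fun J hJ => ?_⟩
  · have : 0 < v - u := by linarith
    positivity
  have hkern := kern (k := kj H J J) hφ (WJ_cont hH J) (WJ_int hH J) (kj_eq H J)
  rw [hkern, Complex.ofReal_re]
  have hint : Integrable fun ξ => WJ H J ξ * QQ φ ξ := by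
    obtain ⟨M, hM⟩ := QQ_bdd hφ
    exact (WJ_int hH J).mul_bdd (c := M) (QQ_cont hφ).aestronglyMeasurable (Eventually.of_forall hM)
  have hQ0 : ∀ ξ, 0 ≤ QQ φ ξ := fun ξ => by
    unfold QQ
    positivity
  have h1 : ∫ ξ in Set.Icc u v, WJ H J ξ * QQ φ ξ ≤ ∫ ξ, WJ H J ξ * QQ φ ξ :=
    setIntegral_le_integral hint (Eventually.of_forall fun ξ => mul_nonneg (WJ_nonneg H J ξ) (hQ0 ξ))
  refine le_trans ?_ h1
  have h2 : ∫ _ξ in Set.Icc u v, c / (16 * Real.pi ^ 2 * v) ≤ ∫ ξ in Set.Icc u v, WJ H J ξ * QQ φ ξ := by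
    refine setIntegral_mono_on ?_ hint.integrableOn measurableSet_Icc fun ξ hξ => ?_
    · exact continuousOn_const.integrableOn_compact isCompact_Icc
    have hξ0 : 0 < ξ := by linarith [hξ.1]
    have hξX : 1 + 4 * K < ξ := by linarith [hξ.1]
    have h3 : ‖G ξ‖ ≤ 1 / 4 := by
      refine (hb ξ).trans ?_
      have hw : (1 + ξ ^ 2)⁻¹ ≤ 1 := inv_le_one_of_one_le₀ (by nlinarith [sq_nonneg ξ])
      have hw0 : 0 ≤ (1 + ξ ^ 2)⁻¹ := by positivity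
      have hw3 : (1 + ξ ^ 2)⁻¹ ^ 3 ≤ (1 + ξ ^ 2)⁻¹ := by
        calc (1 + ξ ^ 2)⁻¹ ^ 3 = (1 + ξ ^ 2)⁻¹ * ((1 + ξ ^ 2)⁻¹ * (1 + ξ ^ 2)⁻¹) := by ring
          _ ≤ (1 + ξ ^ 2)⁻¹ * (1 * 1) := by gcongr
          _ = _ := by ring
      calc K * (1 + ξ ^ 2)⁻¹ ^ 3 ≤ K * (1 + ξ ^ 2)⁻¹ := by gcongr
        _ ≤ 1 / 4 := by
          rw [← div_eq_mul_inv, div_le_iff₀ (by positivity)]
          nlinarith
    have h4 : ‖G (1 / 2 ^ J * ξ) - 1‖ < 1 / 4 := by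
      refine hη' ?_
      rw [Real.dist_eq, sub_zero, abs_of_nonneg (by positivity)]
      refine lt_of_le_of_lt ?_ (hJ0 J hJ)
      have := hξ.2
      gcongr
    have h5 : 1 / 2 ≤ ‖G (1 / 2 ^ J * ξ) - G ξ‖ := by
      have e : G (1 / 2 ^ J * ξ) - G ξ = 1 - (G ξ - (G (1 / 2 ^ J * ξ) - 1)) := by ring
      rw [e]
      have h6 := norm_sub_norm_le (1 : ℂ) (G ξ - (G (1 / 2 ^ J * ξ) - 1))
      have h7 := norm_sub_le (G ξ) (G (1 / 2 ^ J * ξ) - 1)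
      rw [norm_one] at h6
      linarith
    have h8 : 1 / (16 * Real.pi ^ 2 * v) ≤ WJ H J ξ := by
      unfold WJ
      rw [pt hH J hξ0.ne', ← hG, abs_of_pos hξ0]
      have hpi := Real.pi_pos
      rw [div_le_div_iff₀ (by positivity) (by positivity)]
      have h9 : 1 / 4 ≤ ‖G (1 / 2 ^ J * ξ) - G ξ‖ ^ 2 := by nlinarith
      have h10 := hξ.2
      calc 1 * (4 * Real.pi ^ 2 * ξ) ≤ 1 * (4 * Real.pi ^ 2 * v) := by gcongr
        _ = 1 / 4 * (16 * Real.pi ^ 2 * v) := by ring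
        _ ≤ ‖G (1 / 2 ^ J * ξ) - G ξ‖ ^ 2 * (16 * Real.pi ^ 2 * v) := by gcongr
    calc c / (16 * Real.pi ^ 2 * v) = 1 / (16 * Real.pi ^ 2 * v) * c := by ring
      _ ≤ WJ H J ξ * QQ φ ξ := mul_le_mul h8 (hQ ξ hξ) hc.le (WJ_nonneg H J ξ)
  refine le_trans (le_of_eq ?_) h2
  rw [setIntegral_const, smul_eq_mul, Real.volume_real_Icc_of_le huv.le, mul_comm]

end Pool.Agent.Q208.GC
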